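import Pool.Agent.LSG.Stmts

/-!
# Squad LSG, row IND: dense range implies that the coefficients are linearly independent
-/

set_option autoImplicit false

namespace Pool.Agent.LSG.H59

open Pool.Agent.LSG

theorem ind : IndStmt := by
  classical
  intro X Y _ _ _ T c hT hd
  letI : MetricSpace Y := TopologicalSpace.metrizableSpaceMetric Y
  rw [linearIndependent_iff']
  intro F s hs y0 hy0
  have hfin : ((F.erase y0 : Finset Y) : Set Y).Finite := Finset.finite_toSet _
  obtain ⟨g, hg0, hg1, _⟩ := exists_continuous_zero_one_of_isClosed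
    (s := ((F.erase y0 : Finset Y) : Set Y)) (t := {y0}) hfin.isClosed isClosed_singleton (by
      rw [Set.disjoint_singleton_right]
      simp)
  have hgy0 : g y0 = 1 := hg1 (Set.mem_singleton y0)
  have hz : ∀ y ∈ F, y ≠ y0 → g y = 0 := by
    intro y hy hne
    exact hg0 (by simp [hy, hne])
  have hsum : ∀ f : C(X, ℝ), ∑ y ∈ F, s y * T f y = 0 := by
    intro f
    have h1 : ∀ y, T f y = Finsupp.linearCombination ℝ (fun x => f x) (c y) := by
      intro y
      rw [hT f y, Finsupp.linearCombination_apply]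
      rfl
    have h2 : Finsupp.linearCombination ℝ (fun x => f x) (∑ y ∈ F, s y • c y) = 0 := by
      rw [hs, map_zero]
    rw [map_sum] at h2
    rw [← h2]
    refine Finset.sum_congr rfl fun y _ => ?_
    rw [map_smul, h1 y, smul_eq_mul]
  have hg : ∑ y ∈ F, s y * g y = s y0 := by
    rw [Finset.sum_eq_single_of_mem y0 hy0]
    · rw [hgy0, mul_one]
    · intro y hy hne
      rw [hz y hy hne, mul_zero]
  have key : ∀ ε : ℝ, 0 < ε → |s y0| ≤ ε * ∑ y ∈ F, |s y| := by
    intro ε hε
    obtain ⟨f, hf⟩ := hd g F ε hε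
    have e : s y0 = ∑ y ∈ F, s y * (g y - T f y) := by
      have : ∑ y ∈ F, s y * (g y - T f y) = ∑ y ∈ F, s y * g y - ∑ y ∈ F, s y * T f y := by
        rw [← Finset.sum_sub_distrib]
        refine Finset.sum_congr rfl fun y _ => ?_
        ring
      rw [this, hsum f, hg, sub_zero]
    rw [e, Finset.mul_sum]
    refine (Finset.abs_sum_le_sum_abs _ _).trans (Finset.sum_le_sum fun y hy => ?_)
    rw [abs_mul, mul_comm ε]
    refine mul_le_mul_of_nonneg_left ?_ (abs_nonneg _)
    rw [abs_sub_comm]
    exact (hf y hy).le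
  by_contra hne
  have hpos : 0 < |s y0| := abs_pos.mpr hne
  have hS : |s y0| ≤ ∑ y ∈ F, |s y| := Finset.single_le_sum (f := fun y => |s y|)
    (fun y _ => abs_nonneg _) hy0
  have hSpos : 0 < ∑ y ∈ F, |s y| := lt_of_lt_of_le hpos hS
  have := key (|s y0| / (2 * ∑ y ∈ F, |s y|)) (by positivity)
  have e : |s y0| / (2 * ∑ y ∈ F, |s y|) * ∑ y ∈ F, |s y| = |s y0| / 2 := by
    field_simp
  rw [e] at this
  linarith

end Pool.Agent.LSG.H59
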